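import Mathlib
import Pool.Agent.H34.Rbw

namespace Pool.Agent.Results.MP_ec82ff_co.Linear
open Pool.Agent.H34.RbwDefs

/-- If the `p`-subdivision of `K_n` has reduced bandwidth at most `c`, then `p ≥ δ n`, where
`δ = 1 / (4 c + 3)` depends only on `c`. -/
theorem result (c : ℕ) : ∃ δ : ℝ, 0 < δ ∧ ∀ n p : ℕ, 2 ≤ n → 1 ≤ p → RbwLE (subK n p) c →
    δ * n ≤ p := by
  refine ⟨1 / (4 * c + 3), by positivity, fun n p hn hp h => ?_⟩
  rw [div_mul_eq_mul_div, one_mul, div_le_iff₀ (by positivity), mul_comm]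
  exact_mod_cast Pool.Agent.H34.Rbw.main c n p hn hp h

end Pool.Agent.Results.MP_ec82ff_co.Linear
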